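import Mathlib

set_option autoImplicit false

/-!
# Square roots of `X^{[*]} X` with the kernel of `X`, but no `H`-selfadjoint one
-/

namespace Pool.Agent.Results.MP_154e02_al.NoSelfadjointRoot

open Matrix

/-- The `H`-adjoint `H⁻¹ X^* H` of `X`. -/
noncomputable def hAdj {𝕜 : Type} [RCLike 𝕜] {n : ℕ} (H X : Matrix (Fin n) (Fin n) 𝕜) :
    Matrix (Fin n) (Fin n) 𝕜 := H⁻¹ * Xᴴ * H

/-- There are an invertible Hermitian `H` and matrices `X`, `Y` of size `n` over `𝕜` with
`Y² = X^{[*]} X` and `ker Y = ker X` such that no `H`-selfadjoint `A` satisfies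
`A² = X^{[*]} X` and `ker A = ker X`. -/
def Counterexample (𝕜 : Type) [RCLike 𝕜] (n : ℕ) : Prop :=
  ∃ H X Y : Matrix (Fin n) (Fin n) 𝕜, IsUnit H ∧ Hᴴ = H ∧
    Y ^ 2 = hAdj H X * X ∧ LinearMap.ker Y.mulVecLin = LinearMap.ker X.mulVecLin ∧
    ¬ ∃ A : Matrix (Fin n) (Fin n) 𝕜, hAdj H A = A ∧ A ^ 2 = hAdj H X * X ∧
      LinearMap.ker A.mulVecLin = LinearMap.ker X.mulVecLin

lemma hAdj_diag {𝕜 : Type} [RCLike 𝕜] {n : ℕ} (d : Fin n → 𝕜) (hd : ∀ i, d i * d i = 1)
    (X : Matrix (Fin n) (Fin n) 𝕜) (i j : Fin n) :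
    hAdj (diagonal d) X i j = d i * star (X j i) * d j := by
  have hinv : (diagonal d)⁻¹ = diagonal d := by
    apply Matrix.inv_eq_left_inv
    rw [diagonal_mul_diagonal]
    simp [hd]
  unfold hAdj
  rw [hinv, Matrix.mul_diagonal, Matrix.diagonal_mul, Matrix.conjTranspose_apply]

theorem complex_case : Counterexample ℂ 2 := by
  set d : Fin 2 → ℂ := ![1, -1] with hdd
  have hd : ∀ i, d i * d i = 1 := by
    intro i
    fin_cases i <;> simp [hdd]
  set H : Matrix (Fin 2) (Fin 2) ℂ := diagonal d with hH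
  set X : Matrix (Fin 2) (Fin 2) ℂ := !![0, 0; 1, 0] with hX
  have hHH : H * H = 1 := by
    rw [hH, diagonal_mul_diagonal]
    simp [hd]
  have hB : hAdj H X * X = !![-1, 0; 0, 0] := by
    ext i j
    rw [Matrix.mul_apply, Fin.sum_univ_two, hH, hAdj_diag d hd, hAdj_diag d hd]
    fin_cases i <;> fin_cases j <;> simp [hX, hdd]
  refine ⟨H, X, !![Complex.I, 0; 0, 0], ⟨⟨H, H, hHH, hHH⟩, rfl⟩, ?_, ?_, ?_, ?_⟩
  · rw [hH, diagonal_conjTranspose]
    congr 1
    ext i
    fin_cases i <;> simp [hdd]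
  · rw [hB, pow_two]
    ext i j
    fin_cases i <;> fin_cases j <;> simp [Matrix.mul_apply, Fin.sum_univ_two]
  · ext v
    simp only [LinearMap.mem_ker, Matrix.mulVecLin_apply]
    constructor
    · intro h
      have h0 := congrFun h 0
      simp [Matrix.mulVec, dotProduct, Fin.sum_univ_two] at h0
      ext i
      fin_cases i <;> simp [hX, Matrix.mulVec, dotProduct, Fin.sum_univ_two, h0]
    · intro h
      have h0 := congrFun h 1
      simp [hX, Matrix.mulVec, dotProduct, Fin.sum_univ_two] at h0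
      ext i
      fin_cases i <;> simp [Matrix.mulVec, dotProduct, Fin.sum_univ_two, h0]
  · rintro ⟨A, hA1, hA2, hA3⟩
    have hker : (![0, 1] : Fin 2 → ℂ) ∈ LinearMap.ker A.mulVecLin := by
      rw [hA3, LinearMap.mem_ker, Matrix.mulVecLin_apply]
      ext i
      fin_cases i <;> simp [hX, Matrix.mulVec, dotProduct, Fin.sum_univ_two]
    rw [LinearMap.mem_ker, Matrix.mulVecLin_apply] at hker
    have h01 : A 0 1 = 0 := by
      have := congrFun hker 0
      simpa [Matrix.mulVec, dotProduct, Fin.sum_univ_two] using this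
    have hsq : A 0 0 * A 0 0 = -1 := by
      rw [hB] at hA2
      have := congrFun (congrFun hA2 0) 0
      rw [pow_two, Matrix.mul_apply, Fin.sum_univ_two, h01] at this
      simpa using this
    have hre : (starRingEnd ℂ) (A 0 0) = A 0 0 := by
      have := congrFun (congrFun hA1 0) 0
      rw [hH, hAdj_diag d hd] at this
      simpa [hdd] using this
    obtain ⟨r, hr⟩ := Complex.conj_eq_iff_real.1 hre
    rw [hr] at hsq
    have : r * r = -1 := by exact_mod_cast hsq
    nlinarith

theorem real_case : Counterexample ℝ 4 := by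
  set d : Fin 4 → ℝ := ![1, 1, -1, -1] with hdd
  have hd : ∀ i, d i * d i = 1 := by
    intro i
    fin_cases i <;> simp [hdd]
  set H : Matrix (Fin 4) (Fin 4) ℝ := diagonal d with hH
  set X : Matrix (Fin 4) (Fin 4) ℝ := !![0, 0, 0, 0; 0, 0, 0, 0; 1, 0, 0, 0; 0, 1, 0, 0] with hX
  have hHH : H * H = 1 := by
    rw [hH, diagonal_mul_diagonal]
    simp [hd]
  have hB : hAdj H X * X = !![-1, 0, 0, 0; 0, -1, 0, 0; 0, 0, 0, 0; 0, 0, 0, 0] := by
    ext i j
    rw [Matrix.mul_apply, Fin.sum_univ_four, hH, hAdj_diag d hd, hAdj_diag d hd,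
      hAdj_diag d hd, hAdj_diag d hd]
    fin_cases i <;> fin_cases j <;> simp [hX, hdd]
  refine ⟨H, X, !![0, 1, 0, 0; -1, 0, 0, 0; 0, 0, 0, 0; 0, 0, 0, 0],
    ⟨⟨H, H, hHH, hHH⟩, rfl⟩, ?_, ?_, ?_, ?_⟩
  · rw [hH, diagonal_conjTranspose]
    congr 1
  · rw [hB, pow_two]
    ext i j
    fin_cases i <;> fin_cases j <;> simp [Matrix.mul_apply, Fin.sum_univ_four]
  · ext v
    simp only [LinearMap.mem_ker, Matrix.mulVecLin_apply]
    constructor
    · intro h
      have h0 := congrFun h 0
      have h1 := congrFun h 1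
      simp [Matrix.mulVec, dotProduct, Fin.sum_univ_four] at h0 h1
      ext i
      fin_cases i <;> simp [hX, Matrix.mulVec, dotProduct, Fin.sum_univ_four, h0, h1]
    · intro h
      have h0 := congrFun h 2
      have h1 := congrFun h 3
      simp [hX, Matrix.mulVec, dotProduct, Fin.sum_univ_four] at h0 h1
      ext i
      fin_cases i <;> simp [Matrix.mulVec, dotProduct, Fin.sum_univ_four, h0, h1]
  · rintro ⟨A, hA1, hA2, hA3⟩
    have hker2 : (![0, 0, 1, 0] : Fin 4 → ℝ) ∈ LinearMap.ker A.mulVecLin := by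
      rw [hA3, LinearMap.mem_ker, Matrix.mulVecLin_apply]
      ext i
      fin_cases i <;> simp [hX, Matrix.mulVec, dotProduct, Fin.sum_univ_four]
    have hker3 : (![0, 0, 0, 1] : Fin 4 → ℝ) ∈ LinearMap.ker A.mulVecLin := by
      rw [hA3, LinearMap.mem_ker, Matrix.mulVecLin_apply]
      ext i
      fin_cases i <;> simp [hX, Matrix.mulVec, dotProduct, Fin.sum_univ_four]
    rw [LinearMap.mem_ker, Matrix.mulVecLin_apply] at hker2 hker3
    have h02 : A 0 2 = 0 := by
      have := congrFun hker2 0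
      simpa [Matrix.mulVec, dotProduct, Fin.sum_univ_four] using this
    have h03 : A 0 3 = 0 := by
      have := congrFun hker3 0
      simpa [Matrix.mulVec, dotProduct, Fin.sum_univ_four] using this
    have hsq : A 0 0 * A 0 0 + A 0 1 * A 1 0 = -1 := by
      rw [hB] at hA2
      have := congrFun (congrFun hA2 0) 0
      rw [pow_two, Matrix.mul_apply, Fin.sum_univ_four, h02, h03] at this
      simpa using this
    have hsymm : A 1 0 = A 0 1 := by
      have := congrFun (congrFun hA1 0) 1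
      rw [hH, hAdj_diag d hd] at this
      simpa [hdd] using this
    rw [hsymm] at hsq
    nlinarith [mul_self_nonneg (A 0 0), mul_self_nonneg (A 0 1)]

/-- Counterexamples over both fields. -/
theorem result : Counterexample ℂ 2 ∧ Counterexample ℝ 4 := ⟨complex_case, real_case⟩

end Pool.Agent.Results.MP_154e02_al.NoSelfadjointRoot
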